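import Pool.Agent.Helper28H.AOD.Main

/-!
# Amicable orthogonal designs of all weights in the orders `2 ^ t * q`

There is a constant `C` such that for all natural numbers `n`, `q > 0`, `t` with `q ≤ 2 ↑↑ n` (the
power tower of `n` twos, `1` for `n = 0`) and `t ≥ 2 ^ C ^ (n + 1)`, with `m = 2 ^ t * q`, and for
EVERY weight `w < m`, there are integer matrices `P`, `Q`, `N` of order `m` such that

* `P` and `Q` are skew-symmetric with disjoint supports, entries `0, ±1`, and together they cover all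
  positions off the diagonal, `P Pᵀ = w I`, `Q Qᵀ = (m - 1 - w) I`, `P Qᵀ + Q Pᵀ = 0`;
* `N` is a symmetric Hadamard matrix, `N Pᵀ = P Nᵀ` and `N Qᵀ = Q Nᵀ`.

Thus `a I + b P + c Q` is an orthogonal design `OD(m; 1, w, m - 1 - w)` which is amicable with the
symmetric Hadamard matrix `N`; `I + P + Q` and `N` are amicable Hadamard matrices, one
skew-Hadamard and one symmetric; `P` is a skew-symmetric weighing matrix `W(m, w)`.
-/

namespace Pool.Agent.Results.MP_d8b1b3_co.AmicableDesignsAllWeights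

open Pool.Agent.Helper28H.AOD

theorem result : ∃ C : ℕ, ∀ n q t : ℕ, 0 < q → q ≤ (fun x : ℕ => 2 ^ x)^[n] 1 →
    2 ^ C ^ (n + 1) ≤ t → ∀ w < 2 ^ t * q,
    ∃ P Q N : Matrix (Fin (2 ^ t * q)) (Fin (2 ^ t * q)) ℤ,
      P.transpose = -P ∧ Q.transpose = -Q ∧ N.transpose = N ∧
      (∀ i, P i i = 0 ∧ Q i i = 0) ∧
      (∀ i j, i ≠ j → ((P i j = 1 ∨ P i j = -1) ∧ Q i j = 0) ∨
        (P i j = 0 ∧ (Q i j = 1 ∨ Q i j = -1))) ∧
      (∀ i j, N i j = 1 ∨ N i j = -1) ∧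
      P * P.transpose = (w : ℤ) • (1 : Matrix (Fin (2 ^ t * q)) (Fin (2 ^ t * q)) ℤ) ∧
      Q * Q.transpose = ((2 ^ t * q - 1 - w : ℕ) : ℤ) •
        (1 : Matrix (Fin (2 ^ t * q)) (Fin (2 ^ t * q)) ℤ) ∧
      N * N.transpose = ((2 ^ t * q : ℕ) : ℤ) •
        (1 : Matrix (Fin (2 ^ t * q)) (Fin (2 ^ t * q)) ℤ) ∧
      P * Q.transpose + Q * P.transpose = 0 ∧
      N * P.transpose = P * N.transpose ∧ N * Q.transpose = Q * N.transpose := by
  obtain ⟨C, _, h⟩ := main_aod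
  refine ⟨C, fun n q t hq hqn ht w hw => ?_⟩
  have h1 := h n q t hq hqn ht w hw
  generalize 2 ^ t * q = m at hw h1 ⊢
  obtain ⟨P, Q, N, h⟩ := h1
  refine ⟨P, Q, N, h.PT, h.QT, h.NT, fun i => ⟨h.P0 i, h.Q0 i⟩, h.PQs, h.Ns, ?_, ?_, ?_, ?_, ?_, ?_⟩
  · rw [h.PT, mul_neg, h.PP, neg_smul, neg_neg]
  · rw [h.QT, mul_neg, h.QQ, neg_smul, neg_neg, Fintype.card_fin]
    congr 1
    omega
  · rw [h.NT, h.NN, Fintype.card_fin]
  · rw [h.PT, h.QT, mul_neg, mul_neg, ← neg_add, h.PQ, neg_zero]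
  · rw [h.PT, h.NT, mul_neg]
    exact (eq_neg_of_add_eq_zero_right h.NP).symm
  · rw [h.QT, h.NT, mul_neg]
    exact (eq_neg_of_add_eq_zero_right h.NQ).symm

end Pool.Agent.Results.MP_d8b1b3_co.AmicableDesignsAllWeights
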