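import Mathlib
import Pool.Agent.H93S.Fin

/-!
# Approximate Hadamard matrices in every order

For every large `n` (not only for multiples of four) there is a sign matrix `M` of order `n` all of whose
singular values are within `n ^ (1 / 4) * (log n) ^ 2` of `√n`. So `M Mᵀ = n I + E` where the operator norm
of `E` is `O (n ^ (3 / 4) * (log n) ^ 2)`, and the condition number of `M` tends to one.

The log* theorem of the starting files gives a Hadamard matrix of order `n + r` with `r ≤ log log n`. If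
`A, B, C, E` are its blocks and `s ^ 2 = n + r`, then `W = A + B (s I - E)⁻¹ C` satisfies `W Wᵀ = s ^ 2 I`,
and the entries of `W - A` are `O (r / √n)`. The signs of the entries of `A` are then flipped
independently with probabilities `O (r / √n)` so that the expected matrix is `W - O (r / √n) A`, and the
operator norm of the deviation is controlled by a trace moment of order `log n`.
-/

set_option autoImplicit false

namespace Pool.Agent.Results.MP_d8b1b3_co.ApproximateEveryOrder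

open Matrix Finset Pool.Agent.H93S

theorem result : ∃ n₀ : ℕ, ∀ n : ℕ, n₀ ≤ n → ∃ M : Matrix (Fin n) (Fin n) ℤ,
    (∀ i j, M i j = 1 ∨ M i j = -1) ∧
    ∀ x : Fin n → ℝ,
      |Real.sqrt (∑ i, (∑ j, (M i j : ℝ) * x j) ^ 2) - Real.sqrt n * Real.sqrt (∑ j, x j ^ 2)| ≤
        (n : ℝ) ^ (1 / 4 : ℝ) * Real.log n ^ 2 * Real.sqrt (∑ j, x j ^ 2) := by
  obtain ⟨n₀, h₀⟩ := main
  refine ⟨n₀, fun n hn => ?_⟩
  obtain ⟨U, S, M, a1, -, a3, -, a5⟩ := h₀ n hn
  refine ⟨Matrix.of fun i j => if M i j = 1 then 1 else -1, ?_, ?_⟩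
  · intro i j
    rw [Matrix.of_apply]
    split_ifs <;> simp
  intro x
  have hM : ∀ i j, (((Matrix.of fun i j => if M i j = 1 then (1 : ℤ) else -1) :
      Matrix (Fin n) (Fin n) ℤ) i j : ℝ) = M i j := by
    intro i j
    rw [Matrix.of_apply]
    rcases a3 i j with h | h
    · rw [h]; simp
    · rw [h]; norm_num
  have e0 : ∀ i, ∑ j, (((Matrix.of fun i j => if M i j = 1 then (1 : ℤ) else -1) :
      Matrix (Fin n) (Fin n) ℤ) i j : ℝ) * x j = ∑ j, M i j * x j :=
    fun i => Finset.sum_congr rfl fun j _ => by rw [hM]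
  simp only [e0]
  have e1 : Real.sqrt (∑ i, (∑ j, M i j * x j) ^ 2) = nr (M *ᵥ x) := by
    unfold nr dotProduct
    congr 1
    refine Finset.sum_congr rfl fun i _ => ?_
    rw [sq]
    rfl
  have e2 : Real.sqrt (∑ j, x j ^ 2) = nr x := by
    unfold nr dotProduct
    congr 1
    exact Finset.sum_congr rfl fun i _ => sq _
  rw [e1, e2]
  have h2 := nr_of_transpose (M - Real.sqrt n • U) _ a5 x
  have hU : nr ((Real.sqrt n • U) *ᵥ x) = Real.sqrt n * nr x := by
    rw [Matrix.smul_mulVec, nr_smul _ (Real.sqrt_nonneg _)]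
    congr 1
    unfold nr
    congr 1
    have h3 : Uᵀ * U = 1 := mul_eq_one_comm.1 a1
    have h4 : (U *ᵥ x) ⬝ᵥ (U *ᵥ x) = x ⬝ᵥ ((Uᵀ * U) *ᵥ x) := by
      rw [← Matrix.mulVec_mulVec, Matrix.dotProduct_mulVec x Uᵀ, Matrix.vecMul_transpose]
    rw [h4, h3, Matrix.one_mulVec]
  have h5 : M *ᵥ x = (Real.sqrt n • U) *ᵥ x + (M - Real.sqrt n • U) *ᵥ x := by
    rw [← Matrix.add_mulVec]
    congr 1
    abel
  have h6 : (Real.sqrt n • U) *ᵥ x = M *ᵥ x + -((M - Real.sqrt n • U) *ᵥ x) := by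
    rw [h5]
    abel
  have h7 : nr (M *ᵥ x) ≤ Real.sqrt n * nr x + nr ((M - Real.sqrt n • U) *ᵥ x) := by
    calc nr (M *ᵥ x) = nr ((Real.sqrt n • U) *ᵥ x + (M - Real.sqrt n • U) *ᵥ x) := by rw [← h5]
      _ ≤ nr ((Real.sqrt n • U) *ᵥ x) + nr ((M - Real.sqrt n • U) *ᵥ x) := nr_add _ _
      _ = _ := by rw [hU]
  have h8 : Real.sqrt n * nr x ≤ nr (M *ᵥ x) + nr ((M - Real.sqrt n • U) *ᵥ x) := by
    calc Real.sqrt n * nr x = nr ((Real.sqrt n • U) *ᵥ x) := hU.symm
      _ = nr (M *ᵥ x + -((M - Real.sqrt n • U) *ᵥ x)) := by rw [← h6]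
      _ ≤ nr (M *ᵥ x) + nr (-((M - Real.sqrt n • U) *ᵥ x)) := nr_add _ _
      _ = _ := by rw [nr_neg]
  rw [abs_le]
  constructor <;> linarith

end Pool.Agent.Results.MP_d8b1b3_co.ApproximateEveryOrder
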