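import Pool.Agent.Helper82.QC.Main

/-!
# Hadamard matrices of order `4 (q + 4)` and `4 (q + 8)` from conference matrices

Let `c` be `4` or `8` and let `q = c v + 1` be a prime power such that there is a symmetric or skew
conference matrix of order `v + 2`. Then there is a Hadamard matrix of order `4 (q + c)`, an odd
multiple of four. (For `c = 2` this is the theorem of Miyamoto and Yamada.) The conference matrix
exists if `v + 1` is an odd prime power (Paley), and, by the asymptotic existence of skew-Hadamard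
matrices (`MP_d8b1b3_co/SkewAsymptotics` of the starting files), if `2 ^ t` divides `v + 2` for some
`t ≥ 2 ^ C ^ (n + 1)`, where `q ≤ 2 ↑↑ n` (the power tower of `n` twos, `1` for `n = 0`) and `C` is an
absolute constant.

With `s = c / 2` the matrix has a border of width `8 s + 4` and the inner part `U ⊗ J + V ⊗ K`,
`J = [1 1; 1 1]`, `K = [1 -1; -1 1]`. Here `V = A ⊗ 1 + B ⊗ i + D₁ ⊗ j + D₂ ⊗ k` with the quaternion
units in the form of `4 × 4` matrices, `A x y = χ (x - y)` and `B x y = χ (x y - l)` on the nonzero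
squares of the field (`l` a nonsquare) and two block matrices `D₁`, `D₂` with
`D₁ ^ 2 + D₂ ^ 2 = 2 s I` on the cosets of the roots of unity of order `s`; and `U = S ⊗ N + I` with
the conference matrix without two rows and columns in the place of `S` and a matrix `N` made of a
Hadamard matrix of order `2 s`. The corner comes from a regular tournament on `2 s + 1` points.
-/

namespace Pool.Agent.Results.MP_d8b1b3_co.ConferenceSeries

theorem result : ∃ C : ℕ, ∀ q v c : ℕ, (c = 4 ∨ c = 8) → IsPrimePow q → q = c * v + 1 →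
    ((∃ (e : ℤ) (W : Matrix (Fin (v + 2)) (Fin (v + 2)) ℤ), (e = 1 ∨ e = -1) ∧
        (∀ i, W i i = 0) ∧ (∀ i j, i ≠ j → W i j = 1 ∨ W i j = -1) ∧
        W.transpose = e • W ∧
        W * W.transpose = ((v + 1 : ℕ) : ℤ) • (1 : Matrix (Fin (v + 2)) (Fin (v + 2)) ℤ)) ∨
      (Even v ∧ IsPrimePow (v + 1)) ∨
      (∃ n t : ℕ, q ≤ (fun x : ℕ => 2 ^ x)^[n] 1 ∧ 2 ^ C ^ (n + 1) ≤ t ∧ 2 ^ t ∣ v + 2)) →
    ∃ H : Matrix (Fin (4 * (q + c))) (Fin (4 * (q + c))) ℤ,
      (∀ i j, H i j = 1 ∨ H i j = -1) ∧
      H * H.transpose = ((4 * (q + c) : ℕ) : ℤ) •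
        (1 : Matrix (Fin (4 * (q + c))) (Fin (4 * (q + c))) ℤ) := by
  obtain ⟨C, h⟩ := Pool.Agent.Helper82.QC.main
  refine ⟨C, fun q v c hc hq hv hyp => h q v c hc hq hv ?_⟩
  rcases hyp with ⟨e, W, he, h0, h1, h2, h3⟩ | hyp | hyp
  · refine Or.inl ⟨e, W, he, ⟨h0, h1, fun x y => ?_, fun x y => ?_⟩⟩
    · have h4 := congrFun (congrFun h2 x) y
      rwa [Matrix.transpose_apply, Matrix.smul_apply, smul_eq_mul] at h4
    · have h4 := congrFun (congrFun h3 x) y
      rw [Matrix.mul_apply, Matrix.smul_apply, Matrix.one_apply] at h4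
      simp only [Matrix.transpose_apply] at h4
      rw [h4, Fintype.card_fin]
      by_cases hxy : x = y
      · rw [if_pos hxy, if_pos hxy]; push_cast; simp only [smul_eq_mul]; ring
      · rw [if_neg hxy, if_neg hxy, smul_zero]
  · exact Or.inr (Or.inl hyp)
  · exact Or.inr (Or.inr hyp)

end Pool.Agent.Results.MP_d8b1b3_co.ConferenceSeries
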