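import Mathlib
import Pool.Agent.H93S.Fin

/-!
# Flat orthogonal matrices of every order

For every large `n` there is a real orthogonal matrix of order `n` all of whose entries have absolute value
`(1 + O (log log n / √n)) / √n`. For a Hadamard matrix all absolute values are `1 / √n`.

The log* theorem of the starting files gives a Hadamard matrix of order `n + r` with `r ≤ log log n`. If
`A, B, C, E` are its blocks and `s ^ 2 = n + r`, then `W = A + B (s I - E)⁻¹ C` satisfies `W Wᵀ = s ^ 2 I`,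
and the entries of `W - A` are `O (r / √n)`.
-/

set_option autoImplicit false

namespace Pool.Agent.Results.MP_d8b1b3_co.FlatEveryOrder

open Matrix Finset Pool.Agent.H93S

theorem result : ∃ n₀ : ℕ, ∀ n : ℕ, n₀ ≤ n → ∃ U : Matrix (Fin n) (Fin n) ℝ,
    U * Uᵀ = 1 ∧
    ∀ i j, |Real.sqrt n * |U i j| - 1| ≤ Real.log (Real.log n) / Real.sqrt n := by
  obtain ⟨n₀, h₀⟩ := main
  refine ⟨n₀, fun n hn => ?_⟩
  obtain ⟨U, S, M, a1, a2, -, a4, -⟩ := h₀ n hn
  refine ⟨U, a1, fun i j => ?_⟩
  have h := a4 i j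
  have hw : 0 ≤ Real.sqrt n := Real.sqrt_nonneg _
  have e1 : Real.sqrt n * |U i j| = |Real.sqrt n * U i j| := by rw [abs_mul, abs_of_nonneg hw]
  have e2 : (1 : ℝ) = |S i j| := by rcases a2 i j with h | h <;> rw [h] <;> simp
  rw [e1]
  nth_rw 1 [e2]
  exact (abs_abs_sub_abs_le_abs_sub _ _).trans h

end Pool.Agent.Results.MP_d8b1b3_co.FlatEveryOrder
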